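import Pool.Agent.ZPK.StmtsR2

/-!
# ZPK row INF: a fixed radius (helper40)
-/

set_option autoImplicit false

namespace Pool.Agent.ZPK.H40

open Polynomial Pool.Agent.ZPT Pool.Agent.ZP3

section Ultra

variable {K : Type} [NormedField K] [IsUltrametricDist K]

theorem mul_near {x x' y y' : K} {c : ℝ} (hx : ‖x‖ ≤ 1) (hy : ‖y'‖ ≤ 1) (h : ‖x - x'‖ ≤ c)
    (h' : ‖y - y'‖ ≤ c) : ‖x * y - x' * y'‖ ≤ c := by
  have e : x * y - x' * y' = x * (y - y') + (x - x') * y' := by ring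
  rw [e]
  refine (IsUltrametricDist.norm_add_le_max _ _).trans (max_le ?_ ?_)
  · rw [norm_mul]
    calc ‖x‖ * ‖y - y'‖ ≤ 1 * ‖y - y'‖ := mul_le_mul_of_nonneg_right hx (norm_nonneg _)
      _ ≤ c := by rw [one_mul]; exact h'
  · rw [norm_mul]
    calc ‖x - x'‖ * ‖y'‖ ≤ ‖x - x'‖ * 1 := mul_le_mul_of_nonneg_left hy (norm_nonneg _)
      _ ≤ c := by rw [mul_one]; exact h

theorem pow_near {x y : K} {c : ℝ} (hx : ‖x‖ ≤ 1) (hy : ‖y‖ ≤ 1) (h : ‖x - y‖ ≤ c) (n : ℕ) :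
    ‖x ^ n - y ^ n‖ ≤ c := by
  induction n with
  | zero => simpa using (norm_nonneg _).trans h
  | succ n ih =>
    rw [pow_succ, pow_succ]
    refine mul_near ?_ hy ih h
    rw [norm_pow]
    exact pow_le_one₀ (norm_nonneg _) hx

theorem norm_eq_of_near {x y : K} (hy : ‖y‖ = 1) (h : ‖x - y‖ < 1) : ‖x‖ = 1 := by
  have h1 : ‖x - y‖ ≠ ‖y‖ := by rw [hy]; exact h.ne
  have e : x = (x - y) + y := by ring
  rw [e, IsUltrametricDist.norm_add_eq_max_of_norm_ne_norm h1, hy]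
  exact max_eq_right h.le

theorem inv_near {x : K} {c : ℝ} (hc : c < 1) (h : ‖x - 1‖ ≤ c) : ‖x⁻¹ - 1‖ ≤ c := by
  have h1 : ‖x‖ = 1 := norm_eq_of_near norm_one (h.trans_lt hc)
  have h0 : x ≠ 0 := by
    intro h2
    rw [h2, norm_zero] at h1
    exact zero_ne_one h1
  have e : x⁻¹ - 1 = -(x - 1) * x⁻¹ := by
    field_simp
    ring
  rw [e, norm_mul, norm_neg, norm_inv, h1, inv_one, mul_one]
  exact h

end Ultra

/-- **INF** -/
theorem inf (hGnu : GnuStmt) (hFin : FinStmt) : InfStmt := by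
  classical
  intro p hp hp5 K _ _ _ _ hExt s A B e₁ e e' m a g δ κ H τ μ hs hA hB hμ0 hμ1 ha hg hδ hτ he hH
    hκ
  have hp0 : (0 : ℝ) < p := by exact_mod_cast hp.pos
  have hpK : (p : K) ≠ 0 := by exact_mod_cast hp.ne_zero
  have hpn : ‖(p : K)‖ = (p : ℝ)⁻¹ := by
    have h1 := hExt (p : ℚ)
    have := Fact.mk hp
    have h2 : padicNorm p (p : ℚ) = (p : ℚ)⁻¹ := padicNorm.padicNorm_p_of_prime
    rw [h2] at h1
    push_cast at h1
    exact h1
  have hsK : ((s : ℚ) : K) ≠ 0 := by exact_mod_cast hs.ne'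
  have ha0 : a ≠ 0 := by
    intro h
    rw [h, norm_zero] at ha
    exact zero_ne_one ha
  -- the root
  obtain ⟨τ₀, hτ₀⟩ := IsAlgClosed.exists_pow_nat_eq ((p : K) ^ B) (by omega : 0 < A)
  have hτ₀0 : τ₀ ≠ 0 := by
    intro h
    rw [h, zero_pow (by omega)] at hτ₀
    exact pow_ne_zero B hpK hτ₀.symm
  have hτ₀n : ‖τ₀‖ = (p : ℝ) ^ (-(s : ℝ)) := by
    have h1 : ‖τ₀‖ ^ A = ((p : ℝ) ^ (-(s : ℝ))) ^ A := by
      rw [← norm_pow, hτ₀, norm_pow, hpn, ← Real.rpow_natCast ((p : ℝ) ^ (-(s : ℝ))) A,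
        ← Real.rpow_mul hp0.le]
      have h2 : -(s : ℝ) * (A : ℝ) = -(B : ℝ) := by
        have h3 : ((B : ℚ) : ℝ) = ((s * A : ℚ) : ℝ) := by rw [hB]
        push_cast at h3
        rw [h3]; ring
      rw [h2, Real.rpow_neg hp0.le, Real.rpow_natCast, inv_pow]
    exact (pow_left_inj₀ (norm_nonneg _) (Real.rpow_nonneg hp0.le _) (by omega)).mp h1
  have hτ0 : τ ≠ 0 := by
    intro h
    rw [h, norm_zero] at hτ
    exact zero_ne_one hτ
  -- the polynomial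
  obtain ⟨c0, hc0⟩ : ∃ c0 : K, c0 = ((s : ℚ) : K) * δ / τ₀ ^ e' := ⟨_, rfl⟩
  obtain ⟨c2, hc2⟩ : ∃ c2 : K, c2 = H * τ₀ ^ m := ⟨_, rfl⟩
  obtain ⟨c3, hc3⟩ : ∃ c3 : K, c3 = τ * τ₀ ^ e / p := ⟨_, rfl⟩
  have hc30 : c3 ≠ 0 := by
    rw [hc3]
    exact div_ne_zero (mul_ne_zero hτ0 (pow_ne_zero _ hτ₀0)) hpK
  obtain ⟨P, hP⟩ : ∃ P : K[X], P = C c0 - C κ * X ^ e' - C c2 * X ^ (m + e') -
      C c3 * X ^ (e + e') := ⟨_, rfl⟩
  have hPc : ∀ i, P.coeff i = (if i = 0 then c0 else 0) - (if i = e' then κ else 0) -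
      (if i = m + e' then c2 else 0) - (if i = e + e' then c3 else 0) := by
    intro i
    rw [hP]
    simp only [coeff_sub, coeff_C, coeff_C_mul, coeff_X_pow, mul_ite, mul_one, mul_zero]
  -- the maximum
  have hx : ∃ (x : K) (i : ℕ), x ≠ 0 ∧ max ‖c0‖ (max ‖c2‖ ‖c3‖) = ‖x‖ ∧ ‖x‖ ≤ ‖P.coeff i‖ := by
    rcases max_choice ‖c0‖ (max ‖c2‖ ‖c3‖) with h | h
    · have hx0 : c0 ≠ 0 := by
        intro h0
        have h1 : ‖c3‖ ≤ max ‖c0‖ (max ‖c2‖ ‖c3‖) := (le_max_right _ _).trans (le_max_right _ _)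
        rw [h, h0, norm_zero] at h1
        exact hc30 (norm_le_zero_iff.mp h1)
      refine ⟨c0, 0, hx0, h, ?_⟩
      rw [hPc 0, if_pos rfl, if_neg (by omega : ¬ 0 = e + e')]
      by_cases he' : e' = 0
      · have h2 : (if 0 = m + e' then c2 else 0) = 0 := by
          split_ifs with h3
          · rcases hH with h4 | h4
            · rw [hc2, h4, zero_mul]
            · omega
          · rfl
        rw [h2, if_pos he'.symm, sub_zero, sub_zero]
        have h3 := hκ he'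
        have h4 : c0 = ((s : ℚ) : K) * δ := by rw [hc0, he', pow_zero, div_one]
        rw [h4, h3]
        exact le_max_left _ _
      · rw [if_neg (by omega), if_neg (by omega), sub_zero, sub_zero, sub_zero]
    · rcases max_choice ‖c2‖ ‖c3‖ with h' | h'
      · have hx0 : c2 ≠ 0 := by
          intro h0
          have h1 : ‖c3‖ ≤ max ‖c2‖ ‖c3‖ := le_max_right _ _
          rw [h', h0, norm_zero] at h1
          exact hc30 (norm_le_zero_iff.mp h1)
        have hm : 1 ≤ m ∧ m < e := by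
          rcases hH with h4 | h4
          · exact absurd (by rw [hc2, h4, zero_mul]) hx0
          · exact h4
        refine ⟨c2, m + e', hx0, h.trans h', ?_⟩
        rw [hPc, if_neg (by omega), if_neg (by omega), if_pos rfl, if_neg (by omega)]
        simp
      · refine ⟨c3, e + e', hc30, h.trans h', ?_⟩
        have h2 : (if e + e' = m + e' then c2 else 0) = 0 := by
          split_ifs with h3
          · rcases hH with h4 | h4
            · rw [hc2, h4, zero_mul]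
            · omega
          · rfl
        rw [hPc, if_neg (by omega), if_neg (by omega), h2, if_pos rfl]
        simp
  obtain ⟨x, i₀, hx0, hxm, hxi⟩ := hx
  have hxn : 0 < ‖x‖ := norm_pos_iff.mpr hx0
  obtain ⟨R, ρ', hρ', hR⟩ := hGnu K (C x⁻¹ * P) μ ⟨i₀, by
    rw [coeff_C_mul, norm_mul, norm_inv, ← div_eq_inv_mul, le_div_iff₀ hxn, one_mul]
    exact hxi⟩ hμ1
  obtain ⟨M, hM1, hM⟩ := hFin p hp (by omega) K hExt
    (R.image fun r => r ^ (e₁ * A) * (a⁻¹) ^ A * g ^ (e₁ * B)) (max μ ρ') (max_lt hμ1 hρ')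
  refine ⟨M, hM1, ?_⟩
  intro t F nu ζ ht hF hnu hineq hζ hrel
  have htn : ‖t‖ = ‖τ₀‖ := by rw [ht, hτ₀n]
  have ht0 : t ≠ 0 := by
    intro h
    rw [h, norm_zero] at htn
    exact hτ₀0 (norm_eq_zero.mp htn.symm)
  obtain ⟨u, hu⟩ : ∃ u : K, u = t / τ₀ := ⟨_, rfl⟩
  have htu : t = τ₀ * u := by rw [hu]; field_simp
  have hun : ‖u‖ = 1 := by
    rw [hu, norm_div, htn, div_self (norm_ne_zero_iff.mpr hτ₀0)]
  have hu0 : u ≠ 0 := by
    intro h
    rw [h, norm_zero] at hun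
    exact zero_ne_one hun
  -- the value of the polynomial
  have hev : P.eval u = u ^ e' * (((s : ℚ) : K) * (δ / t ^ e') - κ -
      (H * t ^ m + τ * (t ^ e / p))) := by
    rw [hP]
    simp only [eval_sub, eval_mul, eval_C, eval_pow, eval_X]
    rw [htu, hc0, hc2, hc3, mul_pow, mul_pow, mul_pow, pow_add, pow_add]
    field_simp
    ring
  have hPu : ‖P.eval u‖ ≤ μ * ‖x‖ := by
    rw [hev, norm_mul, norm_pow, hun, one_pow, one_mul]
    refine hineq.trans ?_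
    refine mul_le_mul_of_nonneg_left (le_of_eq ?_) hμ0
    rw [← hxm, hc0, hc2, hc3]
    congr 1
    · rw [norm_mul, norm_div, norm_div, norm_mul, norm_pow, norm_pow, htn]
      ring
    · congr 1
      · rw [norm_mul, norm_pow, htn]
      · rw [norm_div, norm_div, norm_mul, hτ, one_mul, norm_pow, norm_pow, htn]
  obtain ⟨r, hr, hur⟩ := hR u hun.le (by
    rw [eval_mul, eval_C, norm_mul, norm_inv, ← div_eq_inv_mul, div_le_iff₀ hxn]
    exact hPu)
  have hrn : ‖r‖ = 1 := by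
    have h1 : ‖r - u‖ < 1 := by rw [norm_sub_rev]; exact hur.trans_lt hρ'
    exact norm_eq_of_near hun h1
  have hFn : ‖F‖ = 1 := norm_eq_of_near norm_one (hF.trans_lt hμ1)
  have hF0 : F ≠ 0 := by
    intro h
    rw [h, norm_zero] at hFn
    exact zero_ne_one hFn
  have hnun : ‖nu‖ = 1 := norm_eq_of_near hg (hnu.trans_lt hμ1)
  have hnu0 : nu ≠ 0 := by
    intro h
    rw [h, norm_zero] at hnun
    exact zero_ne_one hnun
  -- the root of unity
  have hζe : ζ = u ^ (e₁ * A) * ((a⁻¹) ^ A * (F⁻¹) ^ A) * nu ^ (e₁ * B) := by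
    have h1 : ((p : K) / nu) ^ (e₁ * B) ≠ 0 := pow_ne_zero _ (div_ne_zero hpK hnu0)
    have h2 : ζ = (t ^ e₁ / (a * F)) ^ A / ((p : K) / nu) ^ (e₁ * B) := by
      rw [hrel]; field_simp
    have h3 : t ^ (e₁ * A) = (p : K) ^ (e₁ * B) * u ^ (e₁ * A) := by
      rw [htu, mul_pow]
      congr 1
      rw [mul_comm e₁ A, pow_mul, hτ₀, ← pow_mul, mul_comm B e₁]
    rw [h2, div_pow, div_pow, mul_pow, ← pow_mul, h3, inv_pow, inv_pow]
    have h4 : (p : K) ^ (e₁ * B) ≠ 0 := pow_ne_zero _ hpK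
    field_simp
  refine hM ζ hζ ⟨r ^ (e₁ * A) * (a⁻¹) ^ A * g ^ (e₁ * B),
    Finset.mem_image.mpr ⟨r, hr, rfl⟩, ?_⟩
  rw [hζe]
  have hcμ : μ ≤ max μ ρ' := le_max_left _ _
  have hcρ : ρ' ≤ max μ ρ' := le_max_right _ _
  refine mul_near ?_ ?_ ?_ ?_
  · rw [norm_mul, norm_mul, norm_pow, norm_pow, norm_pow, norm_inv, norm_inv, hun, ha, hFn]
    simp
  · rw [norm_pow, hg, one_pow]
  · refine mul_near ?_ ?_ ?_ ?_
    · rw [norm_pow, hun, one_pow]
    · rw [norm_pow, norm_inv, ha, inv_one, one_pow]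
    · exact (pow_near hun.le hrn.le hur _).trans hcρ
    · have e1 : (a⁻¹) ^ A * (F⁻¹) ^ A - (a⁻¹) ^ A = (a⁻¹) ^ A * ((F⁻¹) ^ A - 1 ^ A) := by ring
      rw [e1, norm_mul, norm_pow, norm_inv, ha, inv_one, one_pow, one_mul]
      exact (pow_near (by rw [norm_inv, hFn, inv_one]) norm_one.le (inv_near hμ1 hF) A).trans hcμ
  · exact (pow_near hnun.le hg.le hnu _).trans hcμ

end Pool.Agent.ZPK.H40
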